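import Pool.Agent.Q276.RG2

/-!
# MP_4c49f5_co: powers of `x` dividing the Tutte polynomial of a rooted graph

For every finite rooted graph the largest `k` with `x ^ k ∣ T(G; x, y)` equals the number of
vertices hanging at the root by a single non-loop edge; for graphs without loops this is the
number of leaves incident to the root, so the conjecture holds.  If loops are allowed *and*
counted in the degree, the literal statement fails for one edge with a loop at its non-root end.
-/

namespace Pool.Agent.Results.MP_4c49f5_co.RootLeaves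

open Finset Classical MvPolynomial

/-- A rooted graph: `ends e` is the unordered pair of ends of the edge `e` (loops and multiple
edges are allowed), `root` is the distinguished vertex. -/
structure RootedGraph (V E : Type) where
  ends : E → Sym2 V
  root : V

namespace RootedGraph

variable {V E : Type} [Fintype V] [Fintype E] (G : RootedGraph V E)

/-- `u` and `v` are joined by an edge of `F`. -/
def Joined (F : Finset E) (u v : V) : Prop := ∃ e ∈ F, G.ends e = s(u, v)

/-- `F` is the edge set of a tree containing the root: for some vertex set `W` containing the root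
and all ends of edges of `F`, the graph `(W, F)` is connected and `|W| = |F| + 1`. -/
def Feasible (F : Finset E) : Prop :=
  ∃ W : Finset V, G.root ∈ W ∧ (∀ e ∈ F, ∀ v ∈ G.ends e, v ∈ W) ∧
    (∀ w ∈ W, Relation.ReflTransGen (G.Joined F) G.root w) ∧ W.card = F.card + 1

/-- the rank function of the greedoid of feasible sets -/
noncomputable def rk (A : Finset E) : ℕ := (A.powerset.filter G.Feasible).sup card

/-- the Tutte polynomial of the greedoid, with `x = X 0` and `y = X 1` -/
noncomputable def tutte : MvPolynomial (Fin 2) ℤ :=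
  ∑ A : Finset E, (X 0 - 1) ^ (G.rk univ - G.rk A) * (X 1 - 1) ^ (A.card - G.rk A)

/-- the degree of a vertex, loops counted twice -/
noncomputable def degree (v : V) : ℕ :=
  ∑ e : E, if G.ends e = s(v, v) then 2 else if v ∈ G.ends e then 1 else 0

/-- the number of leaves incident to the root: vertices of degree `1` adjacent to the root -/
noncomputable def rootLeaves : ℕ :=
  (univ.filter fun v => v ≠ G.root ∧ G.degree v = 1 ∧ ∃ e, G.ends e = s(G.root, v)).card

/-- the number of non-loop edges at a vertex -/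
noncomputable def nonLoopDegree (v : V) : ℕ :=
  (univ.filter fun e => v ∈ G.ends e ∧ ¬ (G.ends e).IsDiag).card

/-- the vertices `v ≠ root` at which there is exactly one non-loop edge, joining `v` to the root -/
noncomputable def pendants : Finset V :=
  univ.filter fun v => v ≠ G.root ∧ G.nonLoopDegree v = 1 ∧ ∃ e, G.ends e = s(G.root, v)

end RootedGraph

open Pool.Agent.Q276.RG

variable {V E : Type} [Fintype V] [Fintype E] (G : RootedGraph V E)

theorem mem_R_of_walk {F : Finset E} {w : V} (h : Relation.ReflTransGen (G.Joined F) G.root w) :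
    w ∈ R G.ends {G.root} F := by
  induction h with
  | refl => exact sub_R _ _ (mem_singleton_self _)
  | tail _ hs ih =>
    obtain ⟨e, he, hends⟩ := hs
    exact closed_R _ _ e he _ (by rw [hends]; exact Sym2.mem_mk_left _ _) _
      (by rw [hends]; exact Sym2.mem_mk_right _ _) ih

theorem exists_feasible (A : Finset E) (k : ℕ) (hk : k + 1 ≤ (R G.ends {G.root} A).card) :
    ∃ F, F ⊆ A ∧ G.Feasible F ∧ F.card = k := by
  induction k with
  | zero =>
    refine ⟨∅, empty_subset _, ⟨{G.root}, mem_singleton_self _, ?_, ?_, ?_⟩, card_empty⟩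
    · intro e he
      exact absurd he (notMem_empty _)
    · intro w hw
      rw [mem_singleton.1 hw]
    · simp
  | succ k ih =>
    obtain ⟨F, hFA, ⟨W, hrW, hFW, hconn, hcard⟩, hFk⟩ := ih (by omega)
    have hnot : ¬ Closed G.ends A W := by
      intro hc
      have h1 := card_le_card (R_sub (singleton_subset_iff.2 hrW) hc)
      omega
    unfold Closed at hnot
    push Not at hnot
    obtain ⟨e, heA, u, hu, w, hw, huW, hwW⟩ := hnot
    have heF : e ∉ F := fun h => hwW (hFW e h w hw)
    have huw : u ≠ w := fun h => hwW (h ▸ huW)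
    have hends : G.ends e = s(u, w) := (Sym2.mem_and_mem_iff huw).1 ⟨hu, hw⟩
    have hmono : ∀ y, Relation.ReflTransGen (G.Joined F) G.root y →
        Relation.ReflTransGen (G.Joined (insert e F)) G.root y := by
      intro y hy
      induction hy with
      | refl => exact Relation.ReflTransGen.refl
      | tail _ hs ih =>
        obtain ⟨e', he', h⟩ := hs
        exact ih.tail ⟨e', mem_insert_of_mem he', h⟩
    refine ⟨insert e F, insert_subset heA hFA, ⟨insert w W, mem_insert_of_mem hrW, ?_, ?_, ?_⟩, ?_⟩
    · intro e' he' y hy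
      rcases mem_insert.1 he' with h | h
      · subst h
        rw [hends, Sym2.mem_iff] at hy
        rcases hy with h | h
        · subst h; exact mem_insert_of_mem huW
        · subst h; exact mem_insert_self _ _
      · exact mem_insert_of_mem (hFW e' h y hy)
    · intro y hy
      rcases mem_insert.1 hy with h | h
      · subst h
        exact (hmono u (hconn u huW)).tail ⟨e, mem_insert_self _ _, hends⟩
      · exact hmono y (hconn y h)
    · rw [card_insert_of_notMem hwW, card_insert_of_notMem heF, hcard]
    · rw [card_insert_of_notMem heF, hFk]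

theorem rk_eq (A : Finset E) : G.rk A + 1 = (R G.ends {G.root} A).card := by
  have hpos : 0 < (R G.ends {G.root} A).card :=
    card_pos.2 ⟨G.root, sub_R _ _ (mem_singleton_self _)⟩
  apply le_antisymm
  · have : G.rk A ≤ (R G.ends {G.root} A).card - 1 := by
      unfold RootedGraph.rk
      apply Finset.sup_le
      intro F hF
      rw [mem_filter, mem_powerset] at hF
      obtain ⟨hFA, W, hrW, hFW, hconn, hcard⟩ := hF
      have : W ⊆ R G.ends {G.root} A := by
        intro w hw
        exact R_mono (Subset.refl _) hFA (mem_R_of_walk G (hconn w hw))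
      have := card_le_card this
      omega
    omega
  · obtain ⟨F, hFA, hF, hk⟩ := exists_feasible G A ((R G.ends {G.root} A).card - 1) (by omega)
    have : F.card ≤ G.rk A :=
      Finset.le_sup (f := card) (mem_filter.2 ⟨mem_powerset.2 hFA, hF⟩)
    omega

theorem rk_le_card (A : Finset E) : G.rk A ≤ A.card := by
  unfold RootedGraph.rk
  apply Finset.sup_le
  intro F hF
  rw [mem_filter, mem_powerset] at hF
  exact card_le_card hF.1

theorem rk_mono {A A' : Finset E} (h : A ⊆ A') : G.rk A ≤ G.rk A' := by
  have h1 := rk_eq G A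
  have h2 := rk_eq G A'
  have h3 := card_le_card (R_mono (ends := G.ends) (Subset.refl {G.root}) h)
  omega

theorem nonloop_iff {e : E} {v : V} (hv : v ∈ G.ends e) :
    (∃ u ∈ G.ends e, u ≠ v) ↔ ¬ (G.ends e).IsDiag := by
  obtain ⟨w, hw⟩ := Sym2.mem_iff_exists.1 hv
  rw [hw]
  simp only [Sym2.mem_iff, Sym2.mk_isDiag_iff]
  constructor
  · rintro ⟨u, h | h, hne⟩
    · exact absurd h hne
    · subst h
      exact fun h => hne h.symm
  · intro h
    exact ⟨w, Or.inr rfl, fun h' => h h'.symm⟩

theorem deg_eq (v : V) : deg G.ends univ v = G.nonLoopDegree v := by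
  unfold deg RootedGraph.nonLoopDegree
  congr 1
  ext e
  simp only [mem_filter, mem_univ, true_and]
  constructor
  · rintro ⟨h1, h2⟩
    exact ⟨h1, (nonloop_iff G h1).1 h2⟩
  · rintro ⟨h1, h2⟩
    exact ⟨h1, (nonloop_iff G h1).2 h2⟩

/-- the edges joining the root to its pendant neighbours -/
noncomputable def Lf : Finset E := univ.filter fun e => ∃ v ∈ G.pendants, G.ends e = s(G.root, v)

theorem pendant_unique {v : V} (hv : v ∈ G.pendants) {e e' : E} (he : v ∈ G.ends e)
    (hne : ∃ u ∈ G.ends e, u ≠ v) (he' : v ∈ G.ends e') (hne' : ∃ u ∈ G.ends e', u ≠ v) :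
    e = e' := by
  have h1 := (mem_filter.1 hv).2.2.1
  unfold RootedGraph.nonLoopDegree at h1
  rw [card_eq_one] at h1
  obtain ⟨a, ha⟩ := h1
  have h2 : e ∈ ({a} : Finset E) := by
    rw [← ha, mem_filter]
    exact ⟨mem_univ _, he, (nonloop_iff G he).1 hne⟩
  have h3 : e' ∈ ({a} : Finset E) := by
    rw [← ha, mem_filter]
    exact ⟨mem_univ _, he', (nonloop_iff G he').1 hne'⟩
  rw [mem_singleton.1 h2, mem_singleton.1 h3]

theorem card_Lf : (Lf G).card = G.pendants.card := by
  symm
  have hex : ∀ v ∈ G.pendants, ∃ e, G.ends e = s(G.root, v) := fun v hv => (mem_filter.1 hv).2.2.2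
  refine Finset.card_bij (fun v hv => Classical.choose (hex v hv)) ?_ ?_ ?_
  · intro v hv
    unfold Lf
    rw [mem_filter]
    exact ⟨mem_univ _, v, hv, Classical.choose_spec (hex v hv)⟩
  · intro v hv v' hv' h
    have h1 := Classical.choose_spec (hex v hv)
    have h2 := Classical.choose_spec (hex v' hv')
    have h3 : s(G.root, v) = s(G.root, v') := by
      rw [← h1, ← h2]
      exact congrArg G.ends h
    exact Sym2.congr_right.1 h3
  · intro e he
    obtain ⟨_, v, hv, hends⟩ := mem_filter.1 he
    refine ⟨v, hv, ?_⟩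
    have h1 := Classical.choose_spec (hex v hv)
    have hvr : v ≠ G.root := (mem_filter.1 hv).2.1
    apply pendant_unique G hv
    · rw [h1]; exact Sym2.mem_mk_right _ _
    · exact ⟨G.root, by rw [h1]; exact Sym2.mem_mk_left _ _, hvr.symm⟩
    · rw [hends]; exact Sym2.mem_mk_right _ _
    · exact ⟨G.root, by rw [hends]; exact Sym2.mem_mk_left _ _, hvr.symm⟩

theorem rk_insert {e : E} (he : e ∈ Lf G) {A : Finset E} (heA : e ∉ A) :
    G.rk (insert e A) = G.rk A + 1 := by
  obtain ⟨_, v, hv, hends⟩ := mem_filter.1 he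
  have hvr : v ≠ G.root := (mem_filter.1 hv).2.1
  have hvB : v ∉ ({G.root} : Finset V) := by
    rw [mem_singleton]; exact hvr
  have hl : ∀ e' ∈ A, v ∈ G.ends e' → ∀ u ∈ G.ends e', u = v := by
    intro e' he' hv' u hu
    by_contra hne
    have : e' = e := pendant_unique G hv hv' ⟨u, hu, hne⟩
      (by rw [hends]; exact Sym2.mem_mk_right _ _)
      ⟨G.root, by rw [hends]; exact Sym2.mem_mk_left _ _, hvr.symm⟩
    exact heA (this ▸ he')
  have hvR : v ∉ R G.ends {G.root} A := not_mem_R_of_loops hvB hl
  have hR : R G.ends {G.root} (insert e A) = insert v (R G.ends {G.root} A) := by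
    rw [R_insert hends (mem_singleton_self _)]
    apply Subset.antisymm
    · apply R_sub (insert_subset_insert _ (sub_R _ _))
      intro e' he' u hu w hw huS
      rcases mem_insert.1 huS with h' | h'
      · subst h'
        rw [hl e' he' hu w hw]
        exact mem_insert_self _ _
      · exact mem_insert_of_mem (closed_R _ _ e' he' u hu w hw h')
    · intro u hu
      rcases mem_insert.1 hu with h | h
      · subst h
        exact sub_R _ _ (mem_insert_self _ _)
      · exact R_mono (subset_insert _ _) (Subset.refl _) h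
  have h1 := rk_eq G (insert e A)
  have h2 := rk_eq G A
  rw [hR, card_insert_of_notMem hvR] at h1
  omega

theorem rk_union {A : Finset E} (A1 : Finset E) (h1 : A1 ⊆ Lf G) (h2 : Disjoint A A1) :
    G.rk (A ∪ A1) = G.rk A + A1.card := by
  induction A1 using Finset.induction_on with
  | empty => simp
  | insert e A1 he ih =>
    rw [union_insert, rk_insert G (h1 (mem_insert_self _ _)) ?_,
      ih ((subset_insert _ _).trans h1) (disjoint_of_subset_right (subset_insert _ _) h2),
      card_insert_of_notMem he, add_assoc]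
    rw [mem_union]
    rintro (h | h)
    · exact disjoint_left.1 h2 h (mem_insert_self _ _)
    · exact he h

/-- the part of the Tutte polynomial that remains after removing the pendant edges at the root -/
noncomputable def T0 : MvPolynomial (Fin 2) ℤ :=
  ∑ A ∈ (univ \ Lf G).powerset,
    (X 0 - 1) ^ (G.rk (univ \ Lf G) - G.rk A) * (X 1 - 1) ^ (A.card - G.rk A)

theorem tutte_eq : G.tutte = X 0 ^ G.pendants.card * T0 G := by
  have hd : Disjoint (univ \ Lf G) (Lf G) := sdiff_disjoint
  have hu : (univ : Finset E) = (univ \ Lf G) ∪ Lf G := by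
    rw [sdiff_union_of_subset (subset_univ _)]
  have hrk : G.rk univ = G.rk (univ \ Lf G) + (Lf G).card := by
    conv_lhs => rw [hu]
    exact rk_union G (Lf G) (Subset.refl _) hd
  unfold RootedGraph.tutte T0
  rw [← powerset_univ]
  conv_lhs => rw [hu]
  rw [sum_powerset_union hd, mul_sum]
  apply sum_congr rfl
  intro A0 hA0
  have hA0F := mem_powerset.1 hA0
  have hdA : ∀ A1 ∈ (Lf G).powerset, Disjoint A0 A1 := fun A1 hA1 =>
    disjoint_of_subset_left hA0F (disjoint_of_subset_right (mem_powerset.1 hA1) hd)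
  have h1 : ∀ A1 ∈ (Lf G).powerset,
      (X 0 - 1 : MvPolynomial (Fin 2) ℤ) ^ (G.rk ((univ \ Lf G) ∪ Lf G) - G.rk (A0 ∪ A1)) *
        (X 1 - 1) ^ ((A0 ∪ A1).card - G.rk (A0 ∪ A1)) =
      (X 0 - 1) ^ (G.rk (univ \ Lf G) - G.rk A0) * (X 1 - 1) ^ (A0.card - G.rk A0) *
        (1 ^ A1.card * (X 0 - 1) ^ ((Lf G).card - A1.card)) := by
    intro A1 hA1
    have hA1L := mem_powerset.1 hA1
    have hc := card_le_card hA1L
    have hm := rk_mono G hA0F
    rw [← hu, hrk, rk_union G A1 hA1L (hdA A1 hA1), card_union_of_disjoint (hdA A1 hA1),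
      show G.rk (univ \ Lf G) + (Lf G).card - (G.rk A0 + A1.card) =
        (G.rk (univ \ Lf G) - G.rk A0) + ((Lf G).card - A1.card) by omega,
      show A0.card + A1.card - (G.rk A0 + A1.card) = A0.card - G.rk A0 by omega, pow_add, one_pow,
      one_mul]
    ring
  rw [sum_congr rfl h1, ← mul_sum, sum_pow_mul_eq_add_pow, card_Lf,
    show (1 : MvPolynomial (Fin 2) ℤ) + (X 0 - 1) = X 0 by ring, mul_comm]

theorem f_ne_zero : f G.ends {G.root} ∅ ∅ (univ \ Lf G) ≠ 0 := by
  apply nonvanish _ _ rfl _ _ (disjoint_empty_right _)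
  rintro v hvB - ⟨hdeg, e, he, b, hb, hends⟩
  rw [mem_singleton] at hvB hb
  subst hb
  have heL : e ∉ Lf G := (mem_sdiff.1 he).2
  have hve : v ∈ G.ends e := by rw [hends]; exact Sym2.mem_mk_right _ _
  have hne : ∃ u ∈ G.ends e, u ≠ v :=
    ⟨G.root, by rw [hends]; exact Sym2.mem_mk_left _ _, fun h => hvB h.symm⟩
  by_cases ht : ∃ e' ∈ Lf G, v ∈ G.ends e'
  · obtain ⟨e', he', hve'⟩ := ht
    obtain ⟨_, v', hv', hends'⟩ := mem_filter.1 he'
    have hvv : v = v' := by
      rw [hends', Sym2.mem_iff] at hve'
      rcases hve' with h | h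
      · exact absurd h hvB
      · exact h
    subst hvv
    have : e = e' := pendant_unique G hv' hve hne hve'
      ⟨G.root, by rw [hends']; exact Sym2.mem_mk_left _ _, fun h => hvB h.symm⟩
    exact heL (this ▸ he')
  · push Not at ht
    have h1 : deg G.ends univ v = 1 := by
      rw [← hdeg]
      unfold deg
      congr 1
      ext e'
      simp only [mem_filter, mem_univ, true_and, mem_sdiff]
      constructor
      · rintro ⟨h1, h2⟩
        exact ⟨fun h => ht e' h h1, h1, h2⟩
      · rintro ⟨_, h1, h2⟩
        exact ⟨h1, h2⟩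
    rw [deg_eq] at h1
    apply heL
    exact mem_filter.2 ⟨mem_univ _, v, mem_filter.2 ⟨mem_univ _, hvB, h1, e, hends⟩, hends⟩

theorem T0_eval : MvPolynomial.aeval (![0, 1 / 2] : Fin 2 → ℚ) (T0 G) ≠ 0 := by
  have hf := f_ne_zero G
  have hg : g G.ends {G.root} ∅ ∅ (univ \ Lf G) ≠ 0 := by
    intro h
    apply hf
    unfold f
    rw [h, mul_zero]
  have key : 2 * (-1) ^ G.rk (univ \ Lf G) * MvPolynomial.aeval (![0, 1 / 2] : Fin 2 → ℚ) (T0 G) =
      g G.ends {G.root} ∅ ∅ (univ \ Lf G) := by
    unfold T0 g
    rw [map_sum, mul_sum]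
    apply sum_congr rfl
    intro A hA
    have hm := rk_mono G (mem_powerset.1 hA)
    have hc := rk_le_card G A
    unfold w
    rw [if_pos ⟨disjoint_empty_right _, empty_subset _⟩, ← rk_eq]
    simp only [map_mul, map_pow, map_sub, aeval_X, map_one, Matrix.cons_val_zero,
      Matrix.cons_val_one]
    obtain ⟨a, ha⟩ := Nat.exists_eq_add_of_le hm
    obtain ⟨c, hc'⟩ := Nat.exists_eq_add_of_le hc
    rw [ha, hc', Nat.add_sub_cancel_left, Nat.add_sub_cancel_left]
    have e1 : ((0 : ℚ) - 1) ^ a = (-1) ^ a := by norm_num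
    have e2 : ((1 : ℚ) / 2 - 1) ^ c = (-1 / 2) ^ c := by norm_num
    have e3 : ((-1 : ℚ) ^ a) * (-1) ^ a = 1 := by
      rw [← mul_pow]; norm_num
    have e4 : (-1 / 2 : ℚ) ^ G.rk A * 2 ^ G.rk A = (-1) ^ G.rk A := by
      rw [← mul_pow]; norm_num
    rw [e1, e2, pow_add, pow_add, pow_succ]
    calc 2 * ((-1 : ℚ) ^ G.rk A * (-1) ^ a) * ((-1) ^ a * (-1 / 2) ^ c)
        = 2 * (-1) ^ G.rk A * ((-1) ^ a * (-1) ^ a) * (-1 / 2) ^ c := by ring
      _ = 2 * ((-1 / 2 : ℚ) ^ G.rk A * 2 ^ G.rk A) * (-1 / 2) ^ c := by rw [e3, e4]; ring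
      _ = _ := by ring
  intro h
  rw [h, mul_zero] at key
  exact hg key.symm

theorem greatest : IsGreatest {k : ℕ | (X 0 : MvPolynomial (Fin 2) ℤ) ^ k ∣ G.tutte}
    G.pendants.card := by
  constructor
  · exact ⟨T0 G, tutte_eq G⟩
  · intro m hm
    by_contra hlt
    push Not at hlt
    have h1 : (X 0 : MvPolynomial (Fin 2) ℤ) ^ (G.pendants.card + 1) ∣
        X 0 ^ G.pendants.card * T0 G := by
      rw [← tutte_eq]
      exact (pow_dvd_pow _ hlt).trans hm
    rw [pow_succ, mul_dvd_mul_iff_left (pow_ne_zero _ (X_ne_zero _))] at h1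
    obtain ⟨q, hq⟩ := h1
    apply T0_eval G
    rw [hq, map_mul, aeval_X]
    simp

theorem degree_eq (hG : ∀ e, ¬ (G.ends e).IsDiag) (v : V) : G.degree v = G.nonLoopDegree v := by
  unfold RootedGraph.degree RootedGraph.nonLoopDegree
  rw [card_filter]
  apply sum_congr rfl
  intro e _
  have h1 : G.ends e ≠ s(v, v) := by
    intro h
    apply hG e
    rw [h]
    exact Sym2.mk_isDiag_iff.2 rfl
  rw [if_neg h1]
  simp [hG e]

theorem rootLeaves_eq (hG : ∀ e, ¬ (G.ends e).IsDiag) : G.rootLeaves = G.pendants.card := by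
  unfold RootedGraph.rootLeaves RootedGraph.pendants
  simp only [degree_eq G hG]

theorem mem_pendants (v : V) : v ∈ G.pendants ↔
    v ≠ G.root ∧ G.nonLoopDegree v = 1 ∧ ∃ e, G.ends e = s(G.root, v) := by
  unfold RootedGraph.pendants
  rw [mem_filter]
  exact and_iff_right (mem_univ _)

theorem rootLeaves_eq_zero
    (h : ∀ v, ¬ (v ≠ G.root ∧ G.degree v = 1 ∧ ∃ e, G.ends e = s(G.root, v))) :
    G.rootLeaves = 0 := by
  unfold RootedGraph.rootLeaves
  rw [card_eq_zero, filter_eq_empty_iff]
  intro v _
  exact h v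

/-- one edge with a loop at its non-root end -/
def loopGraph : RootedGraph (Fin 2) (Fin 2) where
  ends := ![s(0, 1), s(1, 1)]
  root := 0

theorem loop_pendants : 1 ≤ loopGraph.pendants.card := by
  rw [Nat.succ_le_iff, card_pos]
  refine ⟨1, (mem_pendants _ _).2 ⟨?_, ?_, 0, rfl⟩⟩
  · show (1 : Fin 2) ≠ 0
    decide
  · unfold RootedGraph.nonLoopDegree
    rw [card_eq_one]
    refine ⟨0, ?_⟩
    ext e
    simp only [mem_filter, mem_univ, true_and, mem_singleton]
    fin_cases e
    · simp [loopGraph]
    · simp [loopGraph]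

theorem loop_leaves : loopGraph.rootLeaves = 0 := by
  apply rootLeaves_eq_zero
  rintro v ⟨h1, h2, _⟩
  have hv : v = 1 := by
    fin_cases v
    · exact absurd rfl h1
    · rfl
  subst hv
  unfold RootedGraph.degree at h2
  simp [Fin.sum_univ_two, loopGraph] at h2

/-- **Main result.** (1) For every finite rooted graph (loops and multiple edges allowed) the
largest `k` with `x ^ k ∣ T(G; x, y)` is the number of non-root vertices with exactly one non-loop
edge, this edge joining the vertex to the root. (2) If the graph has no loops this number is the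
number of leaves incident to the root. (3) If loops are allowed and counted in the degree, the
equality of the exponent with the number of leaves fails for one edge with a loop at its non-root end. -/
theorem result :
    (∀ (V E : Type) [Fintype V] [Fintype E] (G : RootedGraph V E),
      IsGreatest {k : ℕ | (X 0 : MvPolynomial (Fin 2) ℤ) ^ k ∣ G.tutte} G.pendants.card) ∧
    (∀ (V E : Type) [Fintype V] [Fintype E] (G : RootedGraph V E),
      (∀ e, ¬ (G.ends e).IsDiag) →
      IsGreatest {k : ℕ | (X 0 : MvPolynomial (Fin 2) ℤ) ^ k ∣ G.tutte} G.rootLeaves) ∧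
    ¬ IsGreatest {k : ℕ | (X 0 : MvPolynomial (Fin 2) ℤ) ^ k ∣ loopGraph.tutte}
      loopGraph.rootLeaves := by
  refine ⟨fun V E _ _ G => greatest G, fun V E _ _ G hG => ?_, fun h => ?_⟩
  · rw [rootLeaves_eq G hG]
    exact greatest G
  · have h1 := h.unique (greatest loopGraph)
    have h2 := loop_pendants
    have h3 := loop_leaves
    omega

end Pool.Agent.Results.MP_4c49f5_co.RootLeaves
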